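import Mathlib

/-!
Formal smoothness of a retract, and of the localisation at a prime not containing `f`.
-/

namespace Pool.Agent.T9h99.NA

open Algebra

/-- A retract of a formally smooth algebra is formally smooth. -/
theorem formallySmooth_of_retract {K A B : Type*} [CommRing K] [CommRing A] [Algebra K A]
    [CommRing B] [Algebra K B] [FormallySmooth K A] (i : B →ₐ[K] A) (ρ : A →ₐ[K] B)
    (h : ρ.comp i = AlgHom.id K B) : FormallySmooth K B := by
  refine FormallySmooth.of_comp_surjective fun C _ _ I hI g => ?_
  have hI' : IsNilpotent I := ⟨2, hI⟩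
  obtain ⟨l, hl⟩ := FormallySmooth.exists_lift I hI' (g.comp ρ)
  refine ⟨l.comp i, ?_⟩
  rw [← AlgHom.comp_assoc, hl, AlgHom.comp_assoc, h, AlgHom.comp_id]

/-- If `Q_f` is formally smooth and `f ∉ p` then `Q_p` is formally smooth. -/
theorem isSmoothAt_of_away {K Q : Type*} [CommRing K] [CommRing Q] [Algebra K Q] (f : Q)
    [FormallySmooth K (Localization.Away f)] (p : Ideal Q) [hp : p.IsPrime] (hf : f ∉ p) :
    IsSmoothAt K p := by
  have h1 : (⟨p, hp⟩ : PrimeSpectrum Q) ∈
      Set.range (PrimeSpectrum.comap (algebraMap Q (Localization.Away f))) := by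
    rw [PrimeSpectrum.localization_away_comap_range (Localization.Away f) f]
    exact hf
  obtain ⟨q, hq⟩ := h1
  have h2 : q ∈ smoothLocus K (Localization.Away f) := by
    change FormallySmooth K (Localization.AtPrime q.asIdeal)
    have : FormallySmooth (Localization.Away f) (Localization.AtPrime q.asIdeal) :=
      FormallySmooth.of_isLocalization q.asIdeal.primeCompl
    exact FormallySmooth.comp K (Localization.Away f) (Localization.AtPrime q.asIdeal)
  rw [← smoothLocus_comap_of_isLocalization (Af := Localization.Away f) f] at h2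
  have h3 : PrimeSpectrum.comap (algebraMap Q (Localization.Away f)) q ∈ smoothLocus K Q := h2
  rw [hq] at h3
  exact h3

end Pool.Agent.T9h99.NA
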