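import Pool.Agent.T9h29.NA.Defs

/-!
Formal smoothness of the localisations `R_f` of the complete intersection `R` at an element `f`
which is divisible by enough variables (Newton lifting).
-/

namespace Pool.Agent.T9h99.NA

set_option linter.unusedSectionVars false
set_option linter.unusedVariables false

open MvPolynomial Algebra Pool.Agent.T9h29.NA

universe u

variable {K : Type u} [Field K] {B : Type} [Fintype B] [DecidableEq B] {ι : B → Type}
  [∀ b, Fintype (ι b)] [∀ b, DecidableEq (ι b)] {r : B → ℕ}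

/-- An algebra map out of `R` is a solution of the cubic equations. -/
noncomputable def liftR (M : ∀ b, Matrix (Fin (r b)) (ι b) K) {C : Type*} [CommRing C]
    [Algebra K C] (a : Var ι → C)
    (ha : ∀ b j, ∑ c, algebraMap K C (M b j c) * a ⟨b, c⟩ ^ 3 = 0) : Rg M →ₐ[K] C :=
  Ideal.Quotient.liftₐ (idl M) (aeval a) (by
    intro x hx
    have : idl M ≤ RingHom.ker (aeval a : MvPolynomial (Var ι) K →ₐ[K] C) := by
      rw [idl, Ideal.span_le]
      rintro F ⟨b, j, rfl⟩
      simp only [SetLike.mem_coe, RingHom.mem_ker, cubic, map_sum, map_mul, map_pow, aeval_X]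
      rw [← ha b j]
      refine Finset.sum_congr rfl fun c _ => ?_
      rw [algHom_C]
    exact this hx)

@[simp] theorem liftR_X (M : ∀ b, Matrix (Fin (r b)) (ι b) K) {C : Type*} [CommRing C]
    [Algebra K C] (a : Var ι → C)
    (ha : ∀ b j, ∑ c, algebraMap K C (M b j c) * a ⟨b, c⟩ ^ 3 = 0) (v : Var ι) :
    liftR M a ha (Ideal.Quotient.mk (idl M) (X v)) = a v := by
  have h : liftR M a ha (Ideal.Quotient.mk (idl M) (X v)) = aeval a (X v) := rfl
  rw [h, aeval_X]

theorem liftR_mk (M : ∀ b, Matrix (Fin (r b)) (ι b) K) {C : Type*} [CommRing C]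
    [Algebra K C] (a : Var ι → C)
    (ha : ∀ b j, ∑ c, algebraMap K C (M b j c) * a ⟨b, c⟩ ^ 3 = 0)
    (p : MvPolynomial (Var ι) K) :
    liftR M a ha (Ideal.Quotient.mk (idl M) p) = aeval a p := rfl

/-- The equations of `R` hold in `R`. -/
theorem eqs (M : ∀ b, Matrix (Fin (r b)) (ι b) K) {C : Type*} [CommRing C]
    [Algebra K C] (g : Rg M →ₐ[K] C) (b : B) (j : Fin (r b)) :
    ∑ c, algebraMap K C (M b j c) * g (Ideal.Quotient.mk (idl M) (X ⟨b, c⟩)) ^ 3 = 0 := by
  have h : Ideal.Quotient.mk (idl M) (cubic M b j) = 0 :=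
    Ideal.Quotient.eq_zero_iff_mem.2 (Ideal.subset_span ⟨b, j, rfl⟩)
  have h2 := congrArg g h
  rw [map_zero] at h2
  rw [← h2]
  simp only [cubic, map_sum, map_mul, map_pow]
  refine Finset.sum_congr rfl fun c _ => ?_
  congr 1
  have : (Ideal.Quotient.mk (idl M) (MvPolynomial.C (M b j c))) = algebraMap K (Rg M) (M b j c) := rfl
  rw [this, AlgHom.commutes]

/-- Two algebra maps out of `R` which agree on the variables are equal. -/
theorem hom_ext (M : ∀ b, Matrix (Fin (r b)) (ι b) K) {C : Type*} [CommRing C]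
    [Algebra K C] (g h : Rg M →ₐ[K] C)
    (H : ∀ v, g (Ideal.Quotient.mk (idl M) (X v)) = h (Ideal.Quotient.mk (idl M) (X v))) :
    g = h := by
  apply Ideal.Quotient.algHom_ext
  apply MvPolynomial.algHom_ext
  intro v
  exact H v

/-- One Newton step in one block. -/
theorem newton {C : Type*} [CommRing C] (I : Ideal C) (hI : I ^ 2 = ⊥) {κ : Type} [Fintype κ]
    [DecidableEq κ] {ρ : ℕ} (N : Matrix (Fin ρ) κ C) (s : Fin ρ → κ) (hs : Function.Injective s)
    (h3 : IsUnit (3 : C)) (hdet : IsUnit (N.submatrix id s).det) (a : κ → C)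
    (ha : ∀ j, IsUnit (a (s j))) (h0 : ∀ j, ∑ c, N j c * a c ^ 3 ∈ I) :
    ∃ δ : κ → C, (∀ c, δ c ∈ I) ∧ ∀ j, ∑ c, N j c * (a c + δ c) ^ 3 = 0 := by
  classical
  -- the Jacobian matrix
  set J : Matrix (Fin ρ) (Fin ρ) C := fun j j' => N j (s j') * (3 * a (s j') ^ 2) with hJ
  have hJdet : IsUnit J.det := by
    have e : J = (N.submatrix id s) * Matrix.diagonal fun j' => 3 * a (s j') ^ 2 := by
      ext j j'
      rw [Matrix.mul_diagonal]; rfl
    rw [e, Matrix.det_mul, Matrix.det_diagonal]
    refine hdet.mul ?_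
    refine (IsUnit.prod_iff (s := Finset.univ)).2 ?_
    intro j _
    exact h3.mul ((ha j).pow 2)
  set F : Fin ρ → C := fun j => ∑ c, N j c * a c ^ 3 with hF
  set t : Fin ρ → C := - (J⁻¹.mulVec F) with ht
  have htI : ∀ j, t j ∈ I := by
    intro j
    rw [ht, Pi.neg_apply]
    refine I.neg_mem ?_
    rw [Matrix.mulVec, dotProduct]
    exact I.sum_mem fun j' _ => I.mul_mem_left _ (h0 j')
  have hJt : J.mulVec t = - F := by
    rw [ht, Matrix.mulVec_neg, Matrix.mulVec_mulVec, Matrix.mul_nonsing_inv _ hJdet,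
      Matrix.one_mulVec]
  refine ⟨fun c => ∑ j, if s j = c then t j else 0, ?_, ?_⟩
  · intro c
    refine I.sum_mem fun j _ => ?_
    split_ifs
    · exact htI j
    · exact I.zero_mem
  · intro j
    have hsq : ∀ x ∈ I, ∀ y ∈ I, x * y = 0 := by
      intro x hx y hy
      have : x * y ∈ I ^ 2 := by rw [pow_two]; exact Ideal.mul_mem_mul hx hy
      rw [hI] at this
      simpa using this
    have hδI : ∀ c, (∑ j, if s j = c then t j else 0) ∈ I := by
      intro c
      refine I.sum_mem fun j _ => ?_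
      split_ifs
      · exact htI j
      · exact I.zero_mem
    have e1 : ∀ c, N j c * (a c + ∑ j, if s j = c then t j else 0) ^ 3 =
        N j c * a c ^ 3 + N j c * (3 * a c ^ 2) * (∑ j, if s j = c then t j else 0) := by
      intro c
      set d := ∑ j, if s j = c then t j else 0
      have h := hsq d (hδI c) d (hδI c)
      have h2 : (a c + d) ^ 3 = a c ^ 3 + 3 * a c ^ 2 * d + (3 * a c + d) * (d * d) := by ring
      rw [h2, h]; ring
    rw [Finset.sum_congr rfl fun c _ => e1 c, Finset.sum_add_distrib]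
    have e2 : ∑ c, N j c * (3 * a c ^ 2) * (∑ j', if s j' = c then t j' else 0) =
        J.mulVec t j := by
      simp only [Finset.mul_sum]
      rw [Finset.sum_comm, Matrix.mulVec, dotProduct]
      refine Finset.sum_congr rfl fun j' _ => ?_
      rw [Finset.sum_eq_single (s j')]
      · simp [hJ]
      · intro c _ hc
        rw [if_neg (fun h => hc h.symm), mul_zero]
      · simp
    rw [e2, hJt]
    simp [hF]

/-- **`R_f` is formally smooth** if in every block `r_b` variables (with nonzero minor) are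
units in `R_f`. -/
theorem formallySmooth_loc [CharZero K] (M : ∀ b, Matrix (Fin (r b)) (ι b) K)
    (s : ∀ b, Fin (r b) → ι b) (hs : ∀ b, Function.Injective (s b))
    (hdet : ∀ b, ((M b).submatrix id (s b)).det ≠ 0)
    (f : Rg M) (Rf : Type*) [CommRing Rf] [Algebra (Rg M) Rf] [Algebra K Rf]
    [IsScalarTower K (Rg M) Rf] [IsLocalization.Away f Rf]
    (hu : ∀ b j, IsUnit (algebraMap (Rg M) Rf (Ideal.Quotient.mk (idl M) (X ⟨b, s b j⟩)))) :
    FormallySmooth K Rf := by
  refine FormallySmooth.of_comp_surjective fun C _ _ I hI g => ?_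
  have hI' : IsNilpotent I := ⟨2, hI⟩
  -- lift the values of the variables
  choose a ha using fun v : Var ι => Ideal.Quotient.mk_surjective
    (I := I) (g (algebraMap (Rg M) Rf (Ideal.Quotient.mk (idl M) (X v))))
  have hunit : ∀ x : C, IsUnit (Ideal.Quotient.mk I x) → IsUnit x := by
    intro x hx
    exact (IsNilpotent.isUnit_quotient_mk_iff hI').1 hx
  set G : Rg M →ₐ[K] C ⧸ I := g.comp (IsScalarTower.toAlgHom K (Rg M) Rf) with hG
  have hGX : ∀ v, G (Ideal.Quotient.mk (idl M) (X v)) = Ideal.Quotient.mk I (a v) := by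
    intro v
    rw [ha v]; rfl
  have hstep : ∀ b, ∃ δ : ι b → C, (∀ c, δ c ∈ I) ∧ ∀ j,
      ∑ c, algebraMap K C (M b j c) * (a ⟨b, c⟩ + δ c) ^ 3 = 0 := by
    intro b
    refine newton I hI (fun j c => algebraMap K C (M b j c)) (s b) (hs b) ?_ ?_
      (fun c => a ⟨b, c⟩) ?_ ?_
    · have : IsUnit (3 : K) := IsUnit.mk0 _ (by norm_num)
      have h := this.map (algebraMap K C)
      rwa [map_ofNat] at h
    · have : Matrix.submatrix (fun j c => algebraMap K C (M b j c)) id (s b) =
          (algebraMap K C).mapMatrix ((M b).submatrix id (s b)) := rfl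
      rw [this, ← RingHom.map_det]
      exact (IsUnit.mk0 _ (hdet b)).map (algebraMap K C)
    · intro j
      apply hunit
      rw [← hGX]
      exact (hu b j).map g
    · intro j
      rw [← Ideal.Quotient.eq_zero_iff_mem, map_sum]
      rw [← eqs M G b j]
      refine Finset.sum_congr rfl fun c _ => ?_
      rw [map_mul, map_pow, hGX]
      rfl
  choose δ hδI hδ using hstep
  set h : Rg M →ₐ[K] C := liftR M (fun v => a v + δ v.1 v.2) (fun b j => hδ b j) with hh
  have hcomp : (Ideal.Quotient.mkₐ K I).comp h = G := by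
    apply hom_ext
    intro v
    rw [AlgHom.comp_apply, hh, liftR_X, hGX, Ideal.Quotient.mkₐ_eq_mk, map_add,
      Ideal.Quotient.eq_zero_iff_mem.2 (hδI v.1 v.2), add_zero]
  have hpow : ∀ y : Submonoid.powers f, IsUnit (h y) := by
    intro y
    apply hunit
    have := congrArg (fun φ : Rg M →ₐ[K] C ⧸ I => φ (y : Rg M)) hcomp
    change Ideal.Quotient.mk I (h y) = G y at this
    rw [this]
    exact (IsLocalization.map_units Rf y).map g
  refine ⟨IsLocalization.liftAlgHom (M := Submonoid.powers f) (S := Rf) (f := h) hpow, ?_⟩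
  have key : ∀ x : Rg M, ((Ideal.Quotient.mkₐ K I).comp
      (IsLocalization.liftAlgHom (M := Submonoid.powers f) (S := Rf) (f := h) hpow))
      (algebraMap (Rg M) Rf x) = g (algebraMap (Rg M) Rf x) := by
    intro x
    rw [AlgHom.comp_apply, IsLocalization.liftAlgHom_apply, IsLocalization.lift_eq]
    exact congrArg (fun φ : Rg M →ₐ[K] C ⧸ I => φ x) hcomp
  apply AlgHom.coe_ringHom_injective
  apply IsLocalization.ringHom_ext (Submonoid.powers f)
  exact RingHom.ext key

end Pool.Agent.T9h99.NA
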