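import Pool.Agent.T9h99.NA.Sm1
import Pool.Agent.T9h99.NA.Sm2
import Pool.Agent.T9h82.NA.Primary

/-!
The localisation of the Segre product `Q = ⊕ R_(n,…,n)` at a monomial is a retract of the
localisation of `R`.
-/

namespace Pool.Agent.T9h99.NA

set_option linter.unusedSectionVars false
set_option linter.unusedVariables false

open MvPolynomial Algebra Pool.Agent.T9h29.NA Pool.Agent.T9h82.NA

universe u

variable {K : Type u} [Field K] {B : Type} [Fintype B] [DecidableEq B] {ι : B → Type}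
  [∀ b, Fintype (ι b)] [∀ b, DecidableEq (ι b)] {r : B → ℕ} {A : Type*} [AddCommGroup A]

/-- The class of the monomial `X^μ`. -/
noncomputable def mm (M : ∀ b, Matrix (Fin (r b)) (ι b) K) (μ : Var ι →₀ ℕ) : Rg M :=
  Ideal.Quotient.mk (idl M) (monomial μ 1)

theorem mm_add (M : ∀ b, Matrix (Fin (r b)) (ι b) K) (μ ν : Var ι →₀ ℕ) :
    mm M (μ + ν) = mm M μ * mm M ν := by
  rw [mm, mm, mm, ← map_mul, monomial_mul, one_mul]

theorem mm_zero (M : ∀ b, Matrix (Fin (r b)) (ι b) K) : mm M 0 = 1 := by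
  rw [mm, monomial_zero', C_1, map_one]

theorem mm_nsmul (M : ∀ b, Matrix (Fin (r b)) (ι b) K) (k : ℕ) (μ : Var ι →₀ ℕ) :
    mm M (k • μ) = mm M μ ^ k := by
  induction k with
  | zero => rw [zero_smul, pow_zero, mm_zero]
  | succ k ih => rw [succ_nsmul, mm_add, ih, pow_succ]

theorem mm_sum (M : ∀ b, Matrix (Fin (r b)) (ι b) K) {T : Type*} (s : Finset T)
    (μ : T → (Var ι →₀ ℕ)) : mm M (∑ t ∈ s, μ t) = ∏ t ∈ s, mm M (μ t) := by
  classical
  induction s using Finset.induction_on with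
  | empty => rw [Finset.sum_empty, Finset.prod_empty, mm_zero]
  | insert a s ha ih => rw [Finset.sum_insert ha, Finset.prod_insert ha, mm_add, ih]

theorem mm_single (M : ∀ b, Matrix (Fin (r b)) (ι b) K) (v : Var ι) :
    mm M (Finsupp.single v 1) = Ideal.Quotient.mk (idl M) (X v) := rfl

theorem good_zero_iff (n : ℕ) (μ : Var ι →₀ ℕ) :
    μ ∈ Good (0 : Var ι → A) n ↔ ∀ b, bdeg μ b = n := by
  simp [Good, wgt]

theorem mm_mem_Sn (M : ∀ b, Matrix (Fin (r b)) (ι b) K) {n : ℕ} {μ : Var ι →₀ ℕ}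
    (h : ∀ b, bdeg μ b = n) : mm M μ ∈ Sn M (0 : Var ι → A) n :=
  mk_mem_Sn _ M n (by
    rw [monomial_mem_restrictSupport]
    exact Or.inl ((good_zero_iff n μ).2 h))

theorem mm_mem (M : ∀ b, Matrix (Fin (r b)) (ι b) K) {n : ℕ} {μ : Var ι →₀ ℕ}
    (h : ∀ b, bdeg μ b = n) : mm M μ ∈ Stot M (0 : Var ι → A) :=
  mem_Stot _ M n (mm_mem_Sn M h)

theorem bdeg_sum {T : Type*} (s : Finset T) (μ : T → (Var ι →₀ ℕ)) (b : B) :
    bdeg (∑ t ∈ s, μ t) b = ∑ t ∈ s, bdeg (μ t) b := by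
  unfold bdeg
  rw [Finset.sum_comm]
  refine Finset.sum_congr rfl fun c _ => ?_
  simp

section retract

variable (m : Var ι →₀ ℕ) (cc : ∀ b, ι b) (b0 : B)

/-- the shift exponents -/
noncomputable def sh (b : B) : Var ι →₀ ℕ :=
  if b = b0 then ∑ b' ∈ Finset.univ.erase b0, Finsupp.single (⟨b', cc b'⟩ : Var ι) 1
  else m - Finsupp.single (⟨b, cc b⟩ : Var ι) 1

/-- power of the denominator -/
def ka (b : B) : ℕ := if b = b0 then 0 else 1

theorem sh_sum (hm : ∀ b, 1 ≤ m ⟨b, cc b⟩) :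
    ∑ b, sh m cc b0 b = (∑ b, ka b0 b) • m := by
  rw [← Finset.add_sum_erase _ _ (Finset.mem_univ b0),
    ← Finset.add_sum_erase Finset.univ (ka b0) (Finset.mem_univ b0)]
  have h0 : sh m cc b0 b0 = ∑ b' ∈ Finset.univ.erase b0, Finsupp.single (⟨b', cc b'⟩ : Var ι) 1 :=
    if_pos rfl
  have h1 : ka b0 b0 = 0 := if_pos rfl
  rw [h0, h1, zero_add, ← Finset.sum_add_distrib, Finset.sum_smul]
  refine Finset.sum_congr rfl fun b hb => ?_
  have hb' : b ≠ b0 := (Finset.mem_erase.1 hb).1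
  rw [sh, if_neg hb', ka, if_neg hb', one_smul]
  refine add_tsub_cancel_of_le ?_
  intro v
  rw [Finsupp.single_apply]
  split_ifs with h
  · subst h; exact hm b
  · exact Nat.zero_le _

theorem sum_eq (hm : ∀ b, 1 ≤ m ⟨b, cc b⟩) {n : ℕ} {μ : Var ι →₀ ℕ}
    (hμ : ∀ b, bdeg μ b = n) :
    ∑ v : Var ι, μ v • (Finsupp.single v 1 + sh m cc b0 v.1) =
      μ + (∑ v : Var ι, μ v * ka b0 v.1) • m := by
  have e1 : ∑ v : Var ι, μ v • (Finsupp.single v 1 : Var ι →₀ ℕ) = μ := by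
    ext v
    simp
  have e2 : ∑ v : Var ι, μ v • sh m cc b0 v.1 = n • ∑ b, sh m cc b0 b := by
    rw [Fintype.sum_sigma, Finset.smul_sum]
    refine Finset.sum_congr rfl fun b _ => ?_
    have := hμ b
    unfold bdeg at this
    rw [← this, Finset.sum_smul]
  have e3 : ∑ v : Var ι, μ v * ka b0 v.1 = n * ∑ b, ka b0 b := by
    rw [Fintype.sum_sigma, Finset.mul_sum]
    refine Finset.sum_congr rfl fun b _ => ?_
    have := hμ b
    unfold bdeg at this
    rw [← this, Finset.sum_mul]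
  simp only [smul_add, Finset.sum_add_distrib]
  rw [e1, e2, e3, sh_sum m cc b0 hm, smul_smul]

theorem bdeg_sh {N : ℕ} (hN : ∀ b, bdeg m b = N) (hm : ∀ b, 1 ≤ m ⟨b, cc b⟩) (b b' : B) (c : ι b) :
    bdeg (Finsupp.single (⟨b, c⟩ : Var ι) 1 + sh m cc b0 b) b' = if b = b0 then 1 else N := by
  rw [bdeg_add, bdeg_single]
  by_cases h : b = b0
  · subst h
    rw [if_pos rfl, sh, if_pos rfl, bdeg_sum]
    simp only [bdeg_single]
    rw [Finset.sum_ite_eq']
    by_cases h' : b = b'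
    · subst h'; simp
    · rw [if_neg h', if_pos (Finset.mem_erase.2 ⟨fun h => h' h.symm, Finset.mem_univ _⟩)]
  · rw [if_neg h, sh, if_neg h]
    have h1 : bdeg (m - Finsupp.single (⟨b, cc b⟩ : Var ι) 1) b' +
        bdeg (Finsupp.single (⟨b, cc b⟩ : Var ι) 1) b' = N := by
      rw [← bdeg_add, tsub_add_cancel_of_le, hN]
      intro v
      rw [Finsupp.single_apply]
      split_ifs with h
      · subst h; exact hm b
      · exact Nat.zero_le _
    rw [bdeg_single] at h1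
    change (if b = b' then 1 else 0) + _ = N
    change _ + (if b = b' then 1 else 0) = N at h1
    rw [add_comm]; exact h1

end retract

section smooth

variable (M : ∀ b, Matrix (Fin (r b)) (ι b) K) (m : Var ι →₀ ℕ) (cc : ∀ b, ι b) (b0 : B)
  {N : ℕ} (hN : ∀ b, bdeg m b = N) (hm : ∀ b, 1 ≤ m ⟨b, cc b⟩)

/-- numerators -/
noncomputable def yy (A : Type*) [AddCommGroup A] (v : Var ι) : Stot M (0 : Var ι → A) :=
  ⟨mm M (Finsupp.single v 1 + sh m cc b0 v.1), mm_mem M (bdeg_sh m cc b0 hN hm v.1 · v.2)⟩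

/-- the monomial `X^m` as an element of `Q` -/
noncomputable def ff (A : Type*) [AddCommGroup A] : Stot M (0 : Var ι → A) :=
  ⟨mm M m, mm_mem M hN⟩

theorem prod_yy (A : Type*) [AddCommGroup A] {n : ℕ} {μ : Var ι →₀ ℕ}
    (hμ : ∀ b, bdeg μ b = n) :
    ∏ v, yy M m cc b0 hN hm A v ^ μ v =
      (⟨mm M μ, mm_mem M hμ⟩ : Stot M (0 : Var ι → A)) *
        ff M m hN A ^ (∑ v : Var ι, μ v * ka b0 v.1) := by
  apply Subtype.ext
  have h1 : ((∏ v, yy M m cc b0 hN hm A v ^ μ v : Stot M (0 : Var ι → A)) : Rg M) =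
      ∏ v, mm M (Finsupp.single v 1 + sh m cc b0 v.1) ^ μ v := by
    push_cast
    rfl
  rw [h1]
  simp only [← mm_nsmul, ← mm_sum]
  rw [sum_eq m cc b0 hm hμ, mm_add, mm_nsmul]
  rfl

theorem cubic_yy (A : Type*) [AddCommGroup A] (b : B) (j : Fin (r b)) :
    ∑ c, algebraMap K (Stot M (0 : Var ι → A)) (M b j c) * yy M m cc b0 hN hm A ⟨b, c⟩ ^ 3 = 0 := by
  apply Subtype.ext
  have h1 : ((∑ c, algebraMap K (Stot M (0 : Var ι → A)) (M b j c) *
      yy M m cc b0 hN hm A ⟨b, c⟩ ^ 3 : Stot M (0 : Var ι → A)) : Rg M) =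
      ∑ c, algebraMap K (Rg M) (M b j c) *
        mm M (Finsupp.single (⟨b, c⟩ : Var ι) 1 + sh m cc b0 b) ^ 3 := by
    push_cast
    rfl
  rw [h1]
  have h2 := eqs M (AlgHom.id K (Rg M)) b j
  simp only [AlgHom.id_apply] at h2
  have h3 : ∀ c, algebraMap K (Rg M) (M b j c) *
        mm M (Finsupp.single (⟨b, c⟩ : Var ι) 1 + sh m cc b0 b) ^ 3 =
      (algebraMap K (Rg M) (M b j c) * Ideal.Quotient.mk (idl M) (X ⟨b, c⟩) ^ 3) *
        mm M (sh m cc b0 b) ^ 3 := by
    intro c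
    rw [mm_add, mm_single]; ring
  rw [Finset.sum_congr rfl fun c _ => h3 c, ← Finset.sum_mul, h2, zero_mul]
  rfl

variable {Qf : Type*} [CommRing Qf] [Algebra K Qf] [Algebra (Stot M (0 : Var ι → A)) Qf]
  [IsScalarTower K (Stot M (0 : Var ι → A)) Qf] (t : Qf)
  (ht : algebraMap (Stot M (0 : Var ι → A)) Qf (ff M m hN A) * t = 1)

/-- The map `R → Q_f`. -/
noncomputable def rho0 : Rg M →ₐ[K] Qf :=
  liftR M (fun v => algebraMap (Stot M (0 : Var ι → A)) Qf (yy M m cc b0 hN hm A v) *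
      t ^ ka b0 v.1) (by
    intro b j
    have h := congrArg (algebraMap (Stot M (0 : Var ι → A)) Qf)
      (cubic_yy M m cc b0 hN hm A b j)
    rw [map_zero, map_sum] at h
    have h2 : ∀ c, algebraMap K Qf (M b j c) *
        (algebraMap (Stot M (0 : Var ι → A)) Qf (yy M m cc b0 hN hm A ⟨b, c⟩) * t ^ ka b0 b) ^ 3 =
        algebraMap (Stot M (0 : Var ι → A)) Qf
          (algebraMap K (Stot M (0 : Var ι → A)) (M b j c) * yy M m cc b0 hN hm A ⟨b, c⟩ ^ 3) *
          (t ^ ka b0 b) ^ 3 := by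
      intro c
      rw [map_mul, map_pow, ← IsScalarTower.algebraMap_apply]
      ring
    rw [Finset.sum_congr rfl fun c _ => h2 c, ← Finset.sum_mul, h, zero_mul])

include ht in
theorem rho0_mm {n : ℕ} {μ : Var ι →₀ ℕ} (hμ : ∀ b, bdeg μ b = n) :
    rho0 (A := A) M m cc b0 hN hm t (mm M μ) =
      algebraMap (Stot M (0 : Var ι → A)) Qf ⟨mm M μ, mm_mem M hμ⟩ := by
  have h1 : mm M μ = ∏ v, Ideal.Quotient.mk (idl M) (X v) ^ μ v := by
    have : μ = ∑ v : Var ι, μ v • (Finsupp.single v 1 : Var ι →₀ ℕ) := by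
      ext v
      simp
    conv_lhs => rw [this]
    rw [mm_sum]
    refine Finset.prod_congr rfl fun v _ => ?_
    rw [mm_nsmul, mm_single]
  have h2 := congrArg (algebraMap (Stot M (0 : Var ι → A)) Qf)
    (prod_yy M m cc b0 hN hm A hμ)
  conv_lhs => rw [h1]
  rw [map_prod]
  simp only [map_pow]
  unfold rho0
  simp only [liftR_X, mul_pow, Finset.prod_mul_distrib, ← pow_mul]
  rw [Finset.prod_pow_eq_pow_sum]
  simp only [← map_pow, ← map_prod]
  rw [h2, map_mul, map_pow]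
  have h3 : (∑ v : Var ι, ka b0 v.1 * μ v) = ∑ v : Var ι, μ v * ka b0 v.1 :=
    Finset.sum_congr rfl fun v _ => mul_comm _ _
  rw [h3, mul_assoc, ← mul_pow, ht, one_pow, mul_one]

include ht in
theorem rho0_val :
    (rho0 (A := A) M m cc b0 hN hm t).comp (Stot M (0 : Var ι → A)).val =
      IsScalarTower.toAlgHom K (Stot M (0 : Var ι → A)) Qf := by
  apply AlgHom.adjoin_ext
  intro x hx
  obtain ⟨n, hn⟩ := Set.mem_iUnion.1 hx
  obtain ⟨p, hp, e⟩ := hn
  change Ideal.Quotient.mk (idl M) p = x at e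
  have key : ∀ p ∈ restrictSupport K (Good (0 : Var ι → A) n),
      ∀ h : Ideal.Quotient.mk (idl M) p ∈ Stot M (0 : Var ι → A),
      rho0 (A := A) M m cc b0 hN hm t (Ideal.Quotient.mk (idl M) p) =
        algebraMap (Stot M (0 : Var ι → A)) Qf ⟨Ideal.Quotient.mk (idl M) p, h⟩ := by
    intro p hp
    rw [restrictSupport_eq_span] at hp
    induction hp using Submodule.span_induction with
    | mem x hx =>
      obtain ⟨μ, hμ, rfl⟩ := hx
      intro h
      exact rho0_mm M m cc b0 hN hm t ht ((good_zero_iff n μ).1 hμ)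
    | zero =>
      intro h
      have e0 : (⟨Ideal.Quotient.mk (idl M) 0, h⟩ : Stot M (0 : Var ι → A)) = 0 :=
        Subtype.ext (map_zero _)
      rw [e0, map_zero, map_zero, map_zero]
    | add x y hx hy ihx ihy =>
      intro h
      have hx' : Ideal.Quotient.mk (idl M) x ∈ Stot M (0 : Var ι → A) :=
        mem_Stot _ M n (mk_mem_Sn _ M n (by rw [restrictSupport_eq_span]; exact hx))
      have hy' : Ideal.Quotient.mk (idl M) y ∈ Stot M (0 : Var ι → A) :=
        mem_Stot _ M n (mk_mem_Sn _ M n (by rw [restrictSupport_eq_span]; exact hy))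
      have e0 : (⟨Ideal.Quotient.mk (idl M) (x + y), h⟩ : Stot M (0 : Var ι → A)) =
          ⟨_, hx'⟩ + ⟨_, hy'⟩ := Subtype.ext (map_add _ _ _)
      rw [e0, map_add, map_add, map_add, ihx hx', ihy hy']
    | smul c x hx ih =>
      intro h
      have hx' : Ideal.Quotient.mk (idl M) x ∈ Stot M (0 : Var ι → A) :=
        mem_Stot _ M n (mk_mem_Sn _ M n (by rw [restrictSupport_eq_span]; exact hx))
      have e1 : Ideal.Quotient.mk (idl M) (c • x) = c • Ideal.Quotient.mk (idl M) x := rfl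
      have e0 : (⟨Ideal.Quotient.mk (idl M) (c • x), h⟩ : Stot M (0 : Var ι → A)) =
          c • ⟨_, hx'⟩ := Subtype.ext e1
      have e2 : algebraMap (Stot M (0 : Var ι → A)) Qf (c • ⟨_, hx'⟩) =
          c • algebraMap (Stot M (0 : Var ι → A)) Qf ⟨_, hx'⟩ :=
        map_smul (IsScalarTower.toAlgHom K (Stot M (0 : Var ι → A)) Qf) c _
      rw [e0, e1, map_smul, ih hx', e2]
  subst e
  exact key p hp _

end smooth

end Pool.Agent.T9h99.NA
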