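import Pool.Agent.T9h99.NA.Sm3

/-!
`Q_f` is formally smooth for `f = X^m`, `m` supported on more than `r_b` coordinates of every
block.
-/

namespace Pool.Agent.T9h99.NA

set_option linter.unusedSectionVars false
set_option linter.unusedVariables false

open MvPolynomial Algebra Pool.Agent.T9h29.NA Pool.Agent.T9h82.NA

universe u

variable {K : Type u} [Field K] {B : Type} [Fintype B] [DecidableEq B] {ι : B → Type}
  [∀ b, Fintype (ι b)] [∀ b, DecidableEq (ι b)] {r : B → ℕ} {A : Type*} [AddCommGroup A]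

/-- The abstract retract statement. -/
theorem retract_loc {R Q Qf Rf : Type*} [CommRing R] [CommRing Q] [CommRing Qf] [CommRing Rf]
    [Algebra K R] [Algebra K Q] [Algebra K Qf] [Algebra K Rf] [Algebra Q Qf] [Algebra R Rf]
    [IsScalarTower K Q Qf] [IsScalarTower K R Rf] (j : Q →ₐ[K] R) (f : Q)
    [IsLocalization.Away f Qf] [IsLocalization.Away (j f) Rf] (ρ : R →ₐ[K] Qf)
    (h : ρ.comp j = IsScalarTower.toAlgHom K Q Qf) [FormallySmooth K Rf] :
    FormallySmooth K Qf := by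
  have hρ : ∀ q, ρ (j q) = algebraMap Q Qf q := fun q => congrArg (fun φ : Q →ₐ[K] Qf => φ q) h
  have h1 : IsUnit (ρ (j f)) := by
    rw [hρ]; exact IsLocalization.Away.algebraMap_isUnit f
  have h2 : IsUnit (((IsScalarTower.toAlgHom K R Rf).comp j) f) :=
    IsLocalization.Away.algebraMap_isUnit (j f)
  refine formallySmooth_of_retract
    (IsLocalization.Away.liftAlgHom (S := Qf) f h2) (IsLocalization.Away.liftAlgHom (S := Rf) (j f) h1)
    ?_
  apply AlgHom.coe_ringHom_injective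
  apply IsLocalization.ringHom_ext (Submonoid.powers f)
  refine RingHom.ext fun q => ?_
  change IsLocalization.Away.lift (S := Rf) (j f) h1 (IsLocalization.Away.lift (S := Qf) f h2
    (algebraMap Q Qf q)) = algebraMap Q Qf q
  rw [IsLocalization.Away.lift_eq]
  change IsLocalization.Away.lift (S := Rf) (j f) h1 (algebraMap R Rf (j q)) = _
  rw [IsLocalization.Away.lift_eq]
  exact hρ q

theorem mm_isUnit (M : ∀ b, Matrix (Fin (r b)) (ι b) K) (m : Var ι →₀ ℕ) (v : Var ι)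
    (hv : 1 ≤ m v) (Rf : Type*) [CommRing Rf] [Algebra (Rg M) Rf]
    [IsLocalization.Away (mm M m) Rf] :
    IsUnit (algebraMap (Rg M) Rf (Ideal.Quotient.mk (idl M) (X v))) := by
  refine IsLocalization.Away.isUnit_of_dvd (mm M m) ?_
  rw [← mm_single]
  refine ⟨mm M (m - Finsupp.single v 1), ?_⟩
  rw [← mm_add, add_tsub_cancel_of_le]
  intro v'
  rw [Finsupp.single_apply]
  split_ifs with h
  · subst h; exact hv
  · exact Nat.zero_le _

open scoped Classical in
theorem formallySmooth_Qf [CharZero K] (M : ∀ b, Matrix (Fin (r b)) (ι b) K)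
    (hM : ∀ b, AllMinors (M b)) (b0 : B) (m : Var ι →₀ ℕ) {N : ℕ} (hN : ∀ b, bdeg m b = N)
    (hm : ∀ b, r b < (Finset.univ.filter fun c : ι b => m ⟨b, c⟩ ≠ 0).card) :
    FormallySmooth K (Localization.Away (ff M m hN A)) := by
  -- coordinates
  have hs : ∀ b, ∃ s : Fin (r b) → ι b, Function.Injective s ∧ ∀ j, 1 ≤ m ⟨b, s j⟩ := by
    intro b
    obtain ⟨T, hT1, hT2⟩ := Finset.exists_subset_card_eq (hm b).le
    have e : Fin (r b) ≃ T := (Fintype.equivFinOfCardEq (by rw [Fintype.card_coe, hT2])).symm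
    refine ⟨fun i => (e i : ι b), Subtype.val_injective.comp e.injective, fun j => ?_⟩
    have := hT1 (e j).2
    rw [Finset.mem_filter] at this
    exact Nat.one_le_iff_ne_zero.2 this.2
  choose s hs1 hs2 using hs
  have hcc : ∀ b, ∃ c, 1 ≤ m ⟨b, c⟩ := by
    intro b
    obtain ⟨c, hc⟩ := Finset.card_pos.1 (lt_of_le_of_lt (Nat.zero_le _) (hm b))
    rw [Finset.mem_filter] at hc
    exact ⟨c, Nat.one_le_iff_ne_zero.2 hc.2⟩
  choose cc hcc using hcc
  have hR : FormallySmooth K (Localization.Away (mm M m)) :=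
    formallySmooth_loc M s hs1 (fun b => hM b (s b) (hs1 b)) (mm M m) _
      fun b j => mm_isUnit M m _ (hs2 b j) _
  have ht := IsLocalization.Away.mul_invSelf (S := Localization.Away (ff M m hN A)) (ff M m hN A)
  have h := rho0_val (A := A) M m cc b0 hN hcc _ ht
  have hj : IsLocalization.Away ((Stot M (0 : Var ι → A)).val (ff M m hN A))
      (Localization.Away (mm M m)) :=
    inferInstanceAs (IsLocalization.Away (mm M m) (Localization.Away (mm M m)))
  exact retract_loc (Rf := Localization.Away (mm M m)) (Stot M (0 : Var ι → A)).val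
    (ff M m hN A) _ h

/-! ### monomials with full support -/

/-- The exponent `N/(r_b+1)` on `T_b`. -/
noncomputable def fullExp (T : ∀ b, Finset (ι b)) (r : B → ℕ) : Var ι →₀ ℕ :=
  Finsupp.equivFunOnFinite.symm fun v =>
    if v.2 ∈ T v.1 then (∏ b, (r b + 1)) / (r v.1 + 1) else 0

theorem fullExp_apply (T : ∀ b, Finset (ι b)) (r : B → ℕ) (b : B) (c : ι b) :
    fullExp T r ⟨b, c⟩ = if c ∈ T b then (∏ b, (r b + 1)) / (r b + 1) else 0 := rfl

theorem dvd_prod (r : B → ℕ) (b : B) : (r b + 1) ∣ ∏ b, (r b + 1) :=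
  Finset.dvd_prod_of_mem (fun b => r b + 1) (Finset.mem_univ b)

theorem quot_pos (r : B → ℕ) (b : B) : 0 < (∏ b, (r b + 1)) / (r b + 1) := by
  refine Nat.div_pos (Nat.le_of_dvd ?_ (dvd_prod r b)) (Nat.succ_pos _)
  exact Finset.prod_pos fun b _ => Nat.succ_pos _

theorem bdeg_fullExp (T : ∀ b, Finset (ι b)) (r : B → ℕ) (hT : ∀ b, (T b).card = r b + 1)
    (b : B) : bdeg (fullExp T r) b = ∏ b, (r b + 1) := by
  unfold bdeg
  simp only [fullExp_apply]
  rw [Finset.sum_ite_mem, Finset.univ_inter, Finset.sum_const, hT b, smul_eq_mul,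
    Nat.mul_div_cancel' (dvd_prod r b)]

open scoped Classical in
theorem card_fullExp (T : ∀ b, Finset (ι b)) (r : B → ℕ) (hT : ∀ b, (T b).card = r b + 1)
    (b : B) : r b < (Finset.univ.filter fun c : ι b => fullExp T r ⟨b, c⟩ ≠ 0).card := by
  have : (Finset.univ.filter fun c : ι b => fullExp T r ⟨b, c⟩ ≠ 0) = T b := by
    ext c
    rw [Finset.mem_filter, fullExp_apply]
    by_cases h : c ∈ T b
    · simp only [h, if_true, Finset.mem_univ, true_and, iff_true]
      exact (quot_pos r b).ne'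
    · simp [h]
  rw [this, hT b]
  exact Nat.lt_succ_self _

/-- The exponents `fullExp T`. -/
def EE (ι : B → Type) [∀ b, Fintype (ι b)] [∀ b, DecidableEq (ι b)] (r : B → ℕ) :
    Set (Var ι →₀ ℕ) :=
  {m | ∃ T : ∀ b, Finset (ι b), (∀ b, (T b).card = r b + 1) ∧ m = fullExp T r}

theorem EE_good {m : Var ι →₀ ℕ} (hm : m ∈ EE ι r) : m ∈ Good (0 : Var ι → A) (∏ b, (r b + 1)) := by
  obtain ⟨T, hT, rfl⟩ := hm
  exact (good_zero_iff _ _).2 (bdeg_fullExp T r hT)

/-- The monomials with exponents in `E`. -/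
def monsE (K : Type u) [Field K] (E : Set (Var ι →₀ ℕ)) :
    Set (MvPolynomial (Var ι) K) := {f | ∃ m ∈ E, f = monomial m 1}

theorem prod_mem_radicalE [IsAlgClosed K]
    (M : ∀ b, Matrix (Fin (r b)) (ι b) K) (hM : ∀ b, AllMinors (M b))
    (hc : ∀ b, r b ≤ Fintype.card (ι b)) (s : ∀ b, ι b) :
    (∏ b, X (⟨b, s b⟩ : Var ι)) ∈ (idl M ⊔ Ideal.span (monsE K (EE ι r))).radical := by
  classical
  refine Pool.Agent.T9h22.HS.mem_radical_of_points _ _ _ fun v hv1 hv2 => ?_
  by_contra hne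
  rw [map_prod, ← ne_eq, Finset.prod_ne_zero_iff] at hne
  have hne' : ∀ b, v ⟨b, s b⟩ ≠ 0 := fun b => by simpa using hne b (Finset.mem_univ b)
  have h0 : ∀ b, ∃ T : Finset (ι b), T ⊆ (Finset.univ.filter fun c => v ⟨b, c⟩ ≠ 0) ∧
      T.card = r b + 1 := by
    intro b
    refine Finset.exists_subset_card_eq ?_
    refine many_nonzero (M b) (hM b) (hc b) (fun c => v ⟨b, c⟩) ?_ ?_
    · intro h
      exact hne' b (congrFun h (s b))
    · intro j
      have := hv1 (cubic M b j) (Ideal.subset_span ⟨b, j, rfl⟩)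
      simpa [cubic] using this
  choose T hT1 hT2 using h0
  have h1 := hv2 (monomial (fullExp T r) 1) ⟨_, ⟨T, hT2, rfl⟩, rfl⟩
  rw [eval_monomial, one_mul, Finsupp.prod, Finset.prod_eq_zero_iff] at h1
  obtain ⟨⟨b, c⟩, hi, h2⟩ := h1
  have h3 : c ∈ T b := by
    by_contra hcT
    rw [Finsupp.mem_support_iff, fullExp_apply, if_neg hcT] at hi
    exact hi rfl
  have h4 : v ⟨b, c⟩ ≠ 0 := by simpa using hT1 b h3
  exact h4 (pow_eq_zero_iff (by simpa using hi) |>.1 h2)

theorem exists_pow_memE [IsAlgClosed K]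
    (M : ∀ b, Matrix (Fin (r b)) (ι b) K) (hM : ∀ b, AllMinors (M b))
    (hc : ∀ b, r b ≤ Fintype.card (ι b)) :
    ∃ N, ∀ s : ∀ b, ι b,
      (∏ b, X (⟨b, s b⟩ : Var ι)) ^ N ∈ idl M ⊔ Ideal.span (monsE K (EE ι r)) := by
  choose N hN using prod_mem_radicalE M hM hc
  refine ⟨∑ s, N s, fun s => ?_⟩
  rw [← Finset.sum_erase_add _ _ (Finset.mem_univ s), pow_add]
  exact Ideal.mul_mem_left _ _ (hN s)

theorem monomial_memE [IsAlgClosed K]
    (M : ∀ b, Matrix (Fin (r b)) (ι b) K) (hM : ∀ b, AllMinors (M b))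
    (hc : ∀ b, r b ≤ Fintype.card (ι b)) :
    ∃ j0, ∀ j, j0 ≤ j → ∀ m ∈ Good (0 : Var ι → A) j,
      (monomial m 1 : MvPolynomial (Var ι) K) ∈ idl M ⊔ Ideal.span (monsE K (EE ι r)) := by
  obtain ⟨N, hN⟩ := exists_pow_memE M hM hc
  refine ⟨(∑ b, Fintype.card (ι b)) * N + 1, fun j hj m hm => ?_⟩
  have hs : ∀ b, ∃ c, N ≤ m ⟨b, c⟩ := by
    intro b
    by_contra hcon
    push Not at hcon
    have h1 : bdeg m b ≤ Fintype.card (ι b) * N := by
      unfold bdeg
      calc ∑ c, m ⟨b, c⟩ ≤ ∑ _c : ι b, N := Finset.sum_le_sum fun c _ => (hcon c).le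
        _ = _ := by simp
    have h2 : Fintype.card (ι b) ≤ ∑ b, Fintype.card (ι b) :=
      Finset.single_le_sum (f := fun b => Fintype.card (ι b)) (fun _ _ => Nat.zero_le _)
        (Finset.mem_univ b)
    have h3 := Nat.mul_le_mul_right N h2
    have h4 := hm.1 b
    omega
  choose s hs using hs
  let m0 : Var ι →₀ ℕ := ∑ b, Finsupp.single (⟨b, s b⟩ : Var ι) N
  have hle : m0 ≤ m := by
    intro v
    obtain ⟨b, c⟩ := v
    have h1 : m0 ⟨b, c⟩ = if s b = c then N else 0 := by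
      simp only [m0, Finsupp.coe_finsetSum, Finset.sum_apply]
      rw [Finset.sum_eq_single b]
      · rw [Finsupp.single_apply]
        by_cases h : s b = c
        · subst h; simp
        · rw [if_neg h, if_neg]
          intro h'
          exact h (by simpa using h')
      · intro b' _ hb'
        rw [Finsupp.single_apply, if_neg]
        intro h'
        exact hb' (congrArg Sigma.fst h')
      · intro h; exact absurd (Finset.mem_univ _) h
    rw [h1]
    split_ifs with h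
    · subst h; exact hs b
    · exact Nat.zero_le _
  have h2 : (monomial m 1 : MvPolynomial (Var ι) K) =
      monomial (m - m0) 1 * (∏ b, X (⟨b, s b⟩ : Var ι)) ^ N := by
    have h3 : (∏ b, X (⟨b, s b⟩ : Var ι)) ^ N = (monomial m0 1 : MvPolynomial (Var ι) K) := by
      rw [← Finset.prod_pow, monomial_sum_one]
      refine Finset.prod_congr rfl fun b _ => ?_
      rw [X_pow_eq_monomial]
    rw [h3, monomial_mul, one_mul, tsub_add_cancel_of_le hle]
  rw [h2]
  exact Ideal.mul_mem_left _ _ (hN s)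

/-- The elements of `Q` given by the monomials with exponents in `E`. -/
def monsQ (A : Type*) [AddCommGroup A] (M : ∀ b, Matrix (Fin (r b)) (ι b) K) :
    Set (Stot M (0 : Var ι → A)) := {f | ∃ m ∈ EE ι r, (f : Rg M) = mm M m}

theorem part_span_memE (M : ∀ b, Matrix (Fin (r b)) (ι b) K) (j : ℕ)
    {z : MvPolynomial (Var ι) K}
    (hz : z ∈ Ideal.span (monsE K (EE ι r))) :
    ∀ a, ∃ s : Stot M (0 : Var ι → A), s ∈ Ideal.span (monsQ A M) ∧
      (s : Rg M) = Ideal.Quotient.mk (idl M) (part (Good (0 : Var ι → A) j) (a * z)) := by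
  set w : Var ι → A := 0 with hw
  set n := ∏ b, (r b + 1) with hn
  induction hz using Submodule.span_induction with
  | mem x hx =>
    obtain ⟨m, hmE, rfl⟩ := hx
    have hm : m ∈ Good w n := EE_good hmE
    intro a
    rw [part_mul_monomial]
    have hsub : {m' | m' + m ∈ Good w j} ⊆ Good w (j - n) := by
      intro m' hm'
      obtain ⟨h1, h2⟩ := hm'
      obtain ⟨h3, h4⟩ := hm
      refine ⟨fun b => ?_, ?_⟩
      · have h5 := h1 b
        rw [bdeg_add, h3 b] at h5
        omega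
      · rw [wgt_add, h4, add_zero] at h2
        exact h2
    have h1 : Ideal.Quotient.mk (idl M) (part {m' | m' + m ∈ Good w j} a) ∈ Sn M w (j - n) :=
      mk_mem_Sn w M _ (restrictSupport_mono K hsub (part_mem _ _))
    have h2 : Ideal.Quotient.mk (idl M) (monomial m (1 : K)) ∈ Sn M w n :=
      mk_mem_Sn w M _ (by rw [monomial_mem_restrictSupport]; exact Or.inl hm)
    refine ⟨⟨_, mem_Stot w M _ h1⟩ * ⟨_, mem_Stot w M _ h2⟩, ?_, ?_⟩
    · refine Ideal.mul_mem_left _ _ (Ideal.subset_span ?_)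
      exact ⟨m, hmE, rfl⟩
    · rw [map_mul]; rfl
  | zero =>
    intro a
    exact ⟨0, Ideal.zero_mem _, by simp⟩
  | add x y _ _ hx hy =>
    intro a
    obtain ⟨s, hs1, hs2⟩ := hx a
    obtain ⟨t, ht1, ht2⟩ := hy a
    refine ⟨s + t, Ideal.add_mem _ hs1 ht1, ?_⟩
    rw [mul_add, map_add, map_add, ← hs2, ← ht2]; rfl
  | smul c x _ hx =>
    intro a
    obtain ⟨s, hs1, hs2⟩ := hx (a * c)
    refine ⟨s, hs1, ?_⟩
    rw [hs2, smul_eq_mul, mul_assoc]

theorem primaryE [IsAlgClosed K]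
    (M : ∀ b, Matrix (Fin (r b)) (ι b) K) (hM : ∀ b, AllMinors (M b))
    (hc : ∀ b, r b ≤ Fintype.card (ι b)) :
    ∃ j0, ∀ j, j0 ≤ j → ∀ x ∈ grS M (0 : Var ι → A) j, x ∈ Ideal.span (monsQ A M) := by
  obtain ⟨j0, hj0⟩ := monomial_memE (A := A) M hM hc
  have hw : ∀ v : Var ι, 3 • (0 : Var ι → A) v = 0 := fun v => by simp
  refine ⟨j0, fun j hj => ?_⟩
  have key : ∀ p ∈ restrictSupport K (Good (0 : Var ι → A) j),
      ∃ s : Stot M (0 : Var ι → A), s ∈ Ideal.span (monsQ A M) ∧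
        (s : Rg M) = Ideal.Quotient.mk (idl M) p := by
    intro p hp
    rw [restrictSupport_eq_span] at hp
    induction hp using Submodule.span_induction with
    | mem x hx =>
      obtain ⟨m, hm, rfl⟩ := hx
      obtain ⟨y, hy, z, hz, e⟩ := Submodule.mem_sup.1 (hj0 j hj m hm)
      have h1 : part (Good (0 : Var ι → A) j) (monomial m (1 : K)) = monomial m 1 := by
        rw [part_monomial, if_pos hm]
      obtain ⟨s, hs1, hs2⟩ := part_span_memE (A := A) M j hz 1
      refine ⟨s, hs1, ?_⟩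
      rw [hs2, one_mul]
      change _ = Ideal.Quotient.mk (idl M) (monomial m 1)
      rw [← h1, ← e, map_add, map_add]
      rw [Ideal.Quotient.eq_zero_iff_mem.2 (part_mem_idl _ hw M j hy), zero_add]
    | zero => exact ⟨0, Ideal.zero_mem _, by simp⟩
    | add x y _ _ hx hy =>
      obtain ⟨s, hs1, hs2⟩ := hx
      obtain ⟨t, ht1, ht2⟩ := hy
      refine ⟨s + t, Ideal.add_mem _ hs1 ht1, ?_⟩
      rw [map_add, ← hs2, ← ht2]; rfl
    | smul c x _ hx =>
      obtain ⟨s, hs1, hs2⟩ := hx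
      refine ⟨c • s, ?_, ?_⟩
      · rw [Algebra.smul_def]; exact Ideal.mul_mem_left _ _ hs1
      · rw [← Ideal.Quotient.mkₐ_eq_mk K, map_smul, Ideal.Quotient.mkₐ_eq_mk, ← hs2]; rfl
  intro x hx
  obtain ⟨p, hp, e⟩ := hx
  obtain ⟨s, hs1, hs2⟩ := key p hp
  have : x = s := Subtype.ext (by rw [hs2]; exact e.symm)
  rw [this]
  exact hs1

theorem mul_mem_Sn (w : Var ι → A) (M : ∀ b, Matrix (Fin (r b)) (ι b) K) {n k : ℕ} {x y : Rg M}
    (hx : x ∈ Sn M w n) (hy : y ∈ Sn M w k) : x * y ∈ Sn M w (n + k) := by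
  obtain ⟨p, hp, rfl⟩ := hx
  obtain ⟨q, hq, rfl⟩ := hy
  refine ⟨p * q, ?_, ?_⟩
  · intro μ hμ
    obtain ⟨μ1, h1, μ2, h2, rfl⟩ := Finset.mem_add.1 (support_mul p q hμ)
    have h3 := hp h1
    have h4 := hq h2
    refine ⟨fun b => ?_, ?_⟩
    · rw [bdeg_add, h3.1 b, h4.1 b]
    · rw [wgt_add, h3.2, h4.2, add_zero]
  · exact map_mul (Ideal.Quotient.mkₐ K (idl M)) p q

theorem one_mem_Sn (w : Var ι → A) (M : ∀ b, Matrix (Fin (r b)) (ι b) K) :
    (1 : Rg M) ∈ Sn M w 0 := by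
  refine ⟨1, ?_, map_one (Ideal.Quotient.mkₐ K (idl M))⟩
  have : (1 : MvPolynomial (Var ι) K) = monomial 0 1 := rfl
  rw [this, SetLike.mem_coe, monomial_mem_restrictSupport]
  left
  refine ⟨fun b => ?_, ?_⟩
  · simp [bdeg]
  · simp [wgt]

theorem pow_mem_grS (w : Var ι → A) (M : ∀ b, Matrix (Fin (r b)) (ι b) K) {n : ℕ}
    {x : Stot M w} (hx : x ∈ grS M w n) (k : ℕ) : x ^ k ∈ grS M w (n * k) := by
  induction k with
  | zero =>
    rw [pow_zero, mul_zero]
    exact one_mem_Sn w M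
  | succ k ih =>
    rw [pow_succ, mul_add, mul_one]
    exact mul_mem_Sn w M ih hx

/-- **The cone `Q` is smooth outside of its vertex.** -/
theorem smoothQ [CharZero K] [IsAlgClosed K] [Nonempty B]
    (M : ∀ b, Matrix (Fin (r b)) (ι b) K) (hM : ∀ b, AllMinors (M b))
    (hc : ∀ b, r b ≤ Fintype.card (ι b)) (p : Ideal (Stot M (0 : Var ι → A))) [hp : p.IsPrime]
    (hne : ∃ n > 0, ∃ x ∈ grS M (0 : Var ι → A) n, x ∉ p) : IsSmoothAt K p := by
  obtain ⟨j0, hj0⟩ := primaryE (A := A) M hM hc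
  obtain ⟨n, hn, x, hx, hxp⟩ := hne
  -- a power of `x` lies in the ideal generated by the monomials
  have hpow : ∀ k, x ^ k ∈ grS M (0 : Var ι → A) (n * k) := pow_mem_grS _ M hx
  have h1 : ∃ f ∈ monsQ A M, f ∉ p := by
    by_contra hcon
    push Not at hcon
    have h2 : Ideal.span (monsQ A M) ≤ p := Ideal.span_le.2 hcon
    have h3 : x ^ j0 ∈ p := h2 (hj0 (n * j0) (Nat.le_mul_of_pos_left _ hn) _ (hpow j0))
    exact hxp (hp.mem_of_pow_mem _ h3)
  obtain ⟨f, ⟨m, hmE, hf⟩, hfp⟩ := h1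
  obtain ⟨T, hT, rfl⟩ := hmE
  have hN := bdeg_fullExp T r hT
  have hfe : f = ff M (fullExp T r) hN A := Subtype.ext hf
  subst hfe
  obtain ⟨b0⟩ := ‹Nonempty B›
  have := formallySmooth_Qf (A := A) M hM b0 (fullExp T r) hN (card_fullExp T r hT)
  exact isSmoothAt_of_away _ p hfp

end Pool.Agent.T9h99.NA
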